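import Mathlib

set_option autoImplicit false

/-!
# Admissibility of carpets does not reduce to Lie rank one

Type `A_l`, realised in `SL_{l+1}(K)`; the root `e_i - e_j` is the pair `(i, j)`, `i ≠ j`.
For every field `K` which is not algebraic over its prime field `k` and every `l ≥ 2` we give a carpet
of type `A_l` over `K` all of whose rank-one subcarpets are admissible, but which is not admissible.

With `t` transcendental over `k`, put `R = k[t]`, `J = t ^ 2 R`,
`A = k (1 + t ^ 2) + t ^ 4 R`, `B = (k + k t) (1 - t ^ 2) + t ^ 4 R`; the carpet has `A` at `(0, 1)`,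
`B` at `(1, 0)` and `J` elsewhere.
-/

namespace Pool.Agent.Results.MP_23ee20_al.CarpetRankOne

open Matrix Polynomial

universe u

section Defs

variable {K : Type u} [Field K] {l : ℕ}

/-- The root element `x_r(t)` of `SL_{l+1}(K)` for the root `r = e_i - e_j` of type `A_l`. -/
def rootElt {i j : Fin (l + 1)} (h : i ≠ j) (t : K) : SpecialLinearGroup (Fin (l + 1)) K :=
  SpecialLinearGroup.transvection h t

/-- Carpets of type `A_l` over `K`: the structure constants of the Chevalley commutator formula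
are `± 1`, and occur exactly for the pairs of roots `e_i - e_j`, `e_j - e_k`. -/
def IsCarpet (σ : Fin (l + 1) → Fin (l + 1) → AddSubgroup K) : Prop :=
  ∀ i j k : Fin (l + 1), i ≠ j → j ≠ k → i ≠ k → ∀ a ∈ σ i j, ∀ b ∈ σ j k, a * b ∈ σ i k

/-- The elementary carpet subgroup `E(σ)`. -/
def elemSubgroup (σ : Fin (l + 1) → Fin (l + 1) → AddSubgroup K) :
    Subgroup (SpecialLinearGroup (Fin (l + 1)) K) :=
  Subgroup.closure {g | ∃ (i j : Fin (l + 1)) (h : i ≠ j), ∃ t ∈ σ i j, g = rootElt h t}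

/-- The carpet is admissible: `E(σ) ∩ x_r(K) = x_r(σ_r)` for all roots `r`. -/
def Admissible (σ : Fin (l + 1) → Fin (l + 1) → AddSubgroup K) : Prop :=
  ∀ (i j : Fin (l + 1)) (h : i ≠ j),
    (elemSubgroup σ : Set (SpecialLinearGroup (Fin (l + 1)) K)) ∩ Set.range (rootElt (K := K) h)
      = rootElt h '' (σ i j : Set K)

/-- The group generated by `x_r(σ_r)` and `x_{-r}(σ_{-r})`, where `r = e_i - e_j`. -/
def rankOneSubgroup (σ : Fin (l + 1) → Fin (l + 1) → AddSubgroup K) {i j : Fin (l + 1)}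
    (h : i ≠ j) : Subgroup (SpecialLinearGroup (Fin (l + 1)) K) :=
  Subgroup.closure (rootElt h '' (σ i j : Set K) ∪ rootElt h.symm '' (σ j i : Set K))

/-- The rank-one subcarpet `{σ_r, σ_{-r}}` is admissible. -/
def RankOneAdmissible (σ : Fin (l + 1) → Fin (l + 1) → AddSubgroup K) {i j : Fin (l + 1)}
    (h : i ≠ j) : Prop :=
  (rankOneSubgroup σ h : Set (SpecialLinearGroup (Fin (l + 1)) K)) ∩ Set.range (rootElt (K := K) h)
      = rootElt h '' (σ i j : Set K) ∧
  (rankOneSubgroup σ h : Set (SpecialLinearGroup (Fin (l + 1)) K))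
      ∩ Set.range (rootElt (K := K) h.symm) = rootElt h.symm '' (σ j i : Set K)

end Defs

section RootElt

variable {K : Type u} [Field K] {l : ℕ}

theorem rootElt_coe {i j : Fin (l + 1)} (h : i ≠ j) (t : K) :
    ((rootElt h t : SpecialLinearGroup (Fin (l + 1)) K) : Matrix (Fin (l + 1)) (Fin (l + 1)) K)
      = transvection i j t := rfl

theorem rootElt_inv {i j : Fin (l + 1)} (h : i ≠ j) (t : K) :
    (rootElt h t)⁻¹ = rootElt h (-t) := SpecialLinearGroup.transvection_inv h t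

theorem rootElt_add {i j : Fin (l + 1)} (h : i ≠ j) (s t : K) :
    rootElt h (s + t) = rootElt h s * rootElt h t := SpecialLinearGroup.transvection_add h s t

theorem rootElt_zero {i j : Fin (l + 1)} (h : i ≠ j) :
    (rootElt h (0 : K)) = 1 := SpecialLinearGroup.transvection_coeff_zero h

theorem rootElt_mul_same {i j : Fin (l + 1)} (h : i ≠ j) (t : K)
    (g : SpecialLinearGroup (Fin (l + 1)) K) (m : Fin (l + 1)) :
    (rootElt h t * g) i m = g i m + t * g j m := by
  change ((rootElt h t : SpecialLinearGroup (Fin (l + 1)) K).1 * g.1) i m = _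
  rw [show (rootElt h t : SpecialLinearGroup (Fin (l + 1)) K).1 = transvection i j t from rfl]
  simp

theorem rootElt_mul_ne {i j : Fin (l + 1)} (h : i ≠ j) (t : K)
    (g : SpecialLinearGroup (Fin (l + 1)) K) {a : Fin (l + 1)} (ha : a ≠ i) (m : Fin (l + 1)) :
    (rootElt h t * g) a m = g a m := by
  change ((rootElt h t : SpecialLinearGroup (Fin (l + 1)) K).1 * g.1) a m = _
  rw [show (rootElt h t : SpecialLinearGroup (Fin (l + 1)) K).1 = transvection i j t from rfl]
  simp [ha]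

theorem rootElt_apply_ij {i j : Fin (l + 1)} (h : i ≠ j) (t : K) :
    (rootElt h t : SpecialLinearGroup (Fin (l + 1)) K) i j = t := by
  change (transvection i j t) i j = t
  simp [transvection, h]

theorem rootElt_apply_ji {i j : Fin (l + 1)} (h : i ≠ j) (t : K) :
    (rootElt h t : SpecialLinearGroup (Fin (l + 1)) K) j i = 0 := by
  change (transvection i j t) j i = 0
  simp [transvection, h.symm, h]

theorem rootElt_apply_ii {i j : Fin (l + 1)} (h : i ≠ j) (t : K) :
    (rootElt h t : SpecialLinearGroup (Fin (l + 1)) K) i i = 1 := by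
  change (transvection i j t) i i = 1
  simp [transvection, h.symm]

theorem rootElt_injective {i j : Fin (l + 1)} (h : i ≠ j) :
    Function.Injective (rootElt (K := K) (l := l) h) := by
  intro s t hst
  have := congrArg (fun g : SpecialLinearGroup (Fin (l + 1)) K => g i j) hst
  simpa only [rootElt_apply_ij] using this

end RootElt

/-! ## Ping-pong -/

section PingPong

variable {k : Type*} [Field k] {K : Type u} [Field K] {l : ℕ}

/-- Reduced alternating products: `Alt false` start (on the left) with a factor in the opposite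
root subgroup `x_{ji}(B)`, `Alt true` start with a factor in `x_{ij}(A)`; at least one factor
lies in `x_{ji}(B)`. -/
inductive Alt {i j : Fin (l + 1)} (h : i ≠ j) (A B : AddSubgroup K) :
    Bool → SpecialLinearGroup (Fin (l + 1)) K → Prop
  | base (b : K) (hb : b ∈ B) (hb0 : b ≠ 0) (a : K) (ha : a ∈ A) :
      Alt h A B false (rootElt h.symm b * rootElt h a)
  | low (b : K) (hb : b ∈ B) (hb0 : b ≠ 0) (g : SpecialLinearGroup (Fin (l + 1)) K)
      (hg : Alt h A B true g) : Alt h A B false (rootElt h.symm b * g)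
  | up (a : K) (ha : a ∈ A) (ha0 : a ≠ 0) (g : SpecialLinearGroup (Fin (l + 1)) K)
      (hg : Alt h A B false g) : Alt h A B true (rootElt h a * g)

/-- The shape of an arbitrary element of the group generated by `x_{ij}(A)` and `x_{ji}(B)`. -/
def Shape {i j : Fin (l + 1)} (h : i ≠ j) (A B : AddSubgroup K)
    (g : SpecialLinearGroup (Fin (l + 1)) K) : Prop :=
  (∃ a ∈ A, g = rootElt h a) ∨ ∃ e, Alt h A B e g

theorem shape_up {i j : Fin (l + 1)} (h : i ≠ j) (A B : AddSubgroup K) (c : K) (hc : c ∈ A)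
    (g : SpecialLinearGroup (Fin (l + 1)) K) (hg : Shape h A B g) :
    Shape h A B (rootElt h c * g) := by
  by_cases hc0 : c = 0
  · subst hc0
    rw [rootElt_zero, one_mul]
    exact hg
  rcases hg with ⟨a, ha, rfl⟩ | ⟨e, he⟩
  · exact Or.inl ⟨c + a, A.add_mem hc ha, (rootElt_add h c a).symm⟩
  · cases he with
    | base b hb hb0 a ha =>
      exact Or.inr ⟨true, Alt.up c hc hc0 _ (Alt.base b hb hb0 a ha)⟩
    | low b hb hb0 g' hg' =>
      exact Or.inr ⟨true, Alt.up c hc hc0 _ (Alt.low b hb hb0 g' hg')⟩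
    | up a ha ha0 g' hg' =>
      rw [← mul_assoc, ← rootElt_add]
      by_cases h0 : c + a = 0
      · rw [h0, rootElt_zero, one_mul]
        exact Or.inr ⟨false, hg'⟩
      · exact Or.inr ⟨true, Alt.up (c + a) (A.add_mem hc ha) h0 _ hg'⟩

theorem shape_low {i j : Fin (l + 1)} (h : i ≠ j) (A B : AddSubgroup K) (c : K) (hc : c ∈ B)
    (g : SpecialLinearGroup (Fin (l + 1)) K) (hg : Shape h A B g) :
    Shape h A B (rootElt h.symm c * g) := by
  by_cases hc0 : c = 0
  · subst hc0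
    rw [rootElt_zero, one_mul]
    exact hg
  rcases hg with ⟨a, ha, rfl⟩ | ⟨e, he⟩
  · exact Or.inr ⟨false, Alt.base c hc hc0 a ha⟩
  · cases he with
    | base b hb hb0 a ha =>
      rw [← mul_assoc, ← rootElt_add]
      by_cases h0 : c + b = 0
      · rw [h0, rootElt_zero, one_mul]
        exact Or.inl ⟨a, ha, rfl⟩
      · exact Or.inr ⟨false, Alt.base (c + b) (B.add_mem hc hb) h0 a ha⟩
    | low b hb hb0 g' hg' =>
      rw [← mul_assoc, ← rootElt_add]
      by_cases h0 : c + b = 0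
      · rw [h0, rootElt_zero, one_mul]
        exact Or.inr ⟨true, hg'⟩
      · exact Or.inr ⟨false, Alt.low (c + b) (B.add_mem hc hb) h0 _ hg'⟩
    | up a ha ha0 g' hg' =>
      exact Or.inr ⟨false, Alt.low c hc hc0 _ (Alt.up a ha ha0 g' hg')⟩

theorem shape_of_mem {i j : Fin (l + 1)} (h : i ≠ j) (A B : AddSubgroup K)
    (g : SpecialLinearGroup (Fin (l + 1)) K)
    (hg : g ∈ Subgroup.closure (rootElt h '' (A : Set K) ∪ rootElt h.symm '' (B : Set K))) :
    Shape h A B g := by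
  induction hg using Subgroup.closure_induction_left with
  | one => exact Or.inl ⟨0, A.zero_mem, (rootElt_zero h).symm⟩
  | mul_left x hx y hy ih =>
    rcases hx with ⟨a, ha, rfl⟩ | ⟨b, hb, rfl⟩
    · exact shape_up h A B a ha y ih
    · exact shape_low h A B b hb y ih
  | inv_mul_cancel x hx y hy ih =>
    rcases hx with ⟨a, ha, rfl⟩ | ⟨b, hb, rfl⟩
    · rw [rootElt_inv]
      exact shape_up h A B (-a) (A.neg_mem ha) y ih
    · rw [rootElt_inv]
      exact shape_low h A B (-b) (B.neg_mem hb) y ih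

/-- All nonzero elements of `A` are values of non-constant polynomials. -/
def NonConst (φ : k[X] →+* K) (A : AddSubgroup K) : Prop :=
  ∀ a ∈ A, a ≠ 0 → ∃ f : k[X], φ f = a ∧ 0 < f.degree

/-- The ping-pong condition on the first column. -/
theorem deg_step {p q f : k[X]} (hpq : p.degree < q.degree) (hf : 0 < f.degree) :
    q.degree < (p + f * q).degree := by
  have hq : q ≠ 0 := by
    rintro rfl
    simp at hpq
  have hf0 : f ≠ 0 := by
    rintro rfl
    simp at hf
  have h1 : q.degree < (f * q).degree := by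
    rw [degree_mul, degree_eq_natDegree hq, degree_eq_natDegree hf0]
    rw [degree_eq_natDegree hf0] at hf
    have : 0 < f.natDegree := by exact_mod_cast hf
    exact_mod_cast (by omega : q.natDegree < f.natDegree + q.natDegree)
  rw [degree_add_eq_right_of_degree_lt (hpq.trans h1)]
  exact h1

theorem alt_degree (φ : k[X] →+* K) {i j : Fin (l + 1)} (h : i ≠ j) (A B : AddSubgroup K)
    (hA : NonConst φ A) (hB : NonConst φ B) (e : Bool) (g : SpecialLinearGroup (Fin (l + 1)) K)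
    (hg : Alt h A B e g) :
    ∃ p q : k[X], φ p = g i i ∧ φ q = g j i ∧
      ((e = false ∧ p.degree < q.degree) ∨ (e = true ∧ q.degree < p.degree ∧ q ≠ 0)) := by
  induction hg with
  | base b hb hb0 a ha =>
    obtain ⟨f, hf, hfd⟩ := hB b hb hb0
    refine ⟨1, f, ?_, ?_, Or.inl ⟨rfl, ?_⟩⟩
    · rw [rootElt_mul_ne h.symm b _ h, rootElt_apply_ii, map_one]
    · rw [rootElt_mul_same, rootElt_apply_ji, rootElt_apply_ii, hf]
      ring
    · rw [degree_one]
      exact hfd
  | low b hb hb0 g hg ih =>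
    obtain ⟨p, q, hp, hq, hpq⟩ := ih
    rcases hpq with ⟨hc, -⟩ | ⟨-, hpq, hq0⟩
    · exact absurd hc (by decide)
    obtain ⟨f, hf, hfd⟩ := hB b hb hb0
    refine ⟨p, q + f * p, ?_, ?_, Or.inl ⟨rfl, deg_step hpq hfd⟩⟩
    · rw [rootElt_mul_ne h.symm b _ h, hp]
    · rw [rootElt_mul_same, map_add, map_mul, hp, hq, hf]
  | up a ha ha0 g hg ih =>
    obtain ⟨p, q, hp, hq, hpq⟩ := ih
    rcases hpq with ⟨-, hpq⟩ | ⟨hc, -⟩
    · obtain ⟨f, hf, hfd⟩ := hA a ha ha0
      refine ⟨p + f * q, q, ?_, ?_, Or.inr ⟨rfl, deg_step hpq hfd, ?_⟩⟩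
      · rw [rootElt_mul_same, map_add, map_mul, hp, hq, hf]
      · rw [rootElt_mul_ne h a _ h.symm, hq]
      · rintro rfl
        simp at hpq
    · exact absurd hc (by decide)

theorem pingpong (φ : k[X] →+* K) (hφ : Function.Injective φ) {i j : Fin (l + 1)} (h : i ≠ j)
    (A B : AddSubgroup K) (hA : NonConst φ A) (hB : NonConst φ B) (s : K)
    (hs : rootElt h s ∈
      Subgroup.closure (rootElt h '' (A : Set K) ∪ rootElt h.symm '' (B : Set K))) :
    s ∈ A := by
  rcases shape_of_mem h A B _ hs with ⟨a, ha, hsa⟩ | ⟨e, he⟩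
  · rw [rootElt_injective h hsa]
    exact ha
  · exfalso
    obtain ⟨p, q, hp, hq, hpq⟩ := alt_degree φ h A B hA hB e _ he
    rw [rootElt_apply_ji] at hq
    have hq0 : q = 0 := hφ (by rw [hq, map_zero])
    rcases hpq with ⟨-, hpq⟩ | ⟨-, -, hq1⟩
    · rw [hq0] at hpq
      simp at hpq
    · exact hq1 hq0

end PingPong

/-! ## Congruence subgroups -/

section Congruence

variable {K : Type u} [Field K] {l : ℕ}

/-- If `J J ⊆ J`, an element of the group generated by root elements with parameters in `J` is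
congruent to `1` modulo `J`. -/
theorem congr_mem (J : AddSubgroup K) (hJ : ∀ a ∈ J, ∀ b ∈ J, a * b ∈ J)
    {i j : Fin (l + 1)} (h : i ≠ j) (g : SpecialLinearGroup (Fin (l + 1)) K)
    (hg : g ∈ Subgroup.closure (rootElt h '' (J : Set K) ∪ rootElt h.symm '' (J : Set K))) :
    ∀ a b : Fin (l + 1), g a b - (1 : Matrix (Fin (l + 1)) (Fin (l + 1)) K) a b ∈ J := by
  have key : ∀ (i j : Fin (l + 1)) (h : i ≠ j) (c : K), c ∈ J →
      ∀ g : SpecialLinearGroup (Fin (l + 1)) K,
      (∀ a b : Fin (l + 1), g a b - (1 : Matrix (Fin (l + 1)) (Fin (l + 1)) K) a b ∈ J) →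
      ∀ a b : Fin (l + 1), (rootElt h c * g) a b -
        (1 : Matrix (Fin (l + 1)) (Fin (l + 1)) K) a b ∈ J := by
    intro i j h c hc g hg a b
    by_cases ha : a = i
    · subst ha
      rw [rootElt_mul_same]
      have h1 : c * (g j b - (1 : Matrix (Fin (l + 1)) (Fin (l + 1)) K) j b) ∈ J :=
        hJ c hc _ (hg j b)
      have h2 : c * (1 : Matrix (Fin (l + 1)) (Fin (l + 1)) K) j b ∈ J := by
        by_cases hjb : j = b
        · subst hjb
          simpa using hc
        · rw [Matrix.one_apply_ne hjb]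
          simp
      have h3 := J.add_mem (J.add_mem (hg a b) h1) h2
      convert h3 using 1
      ring
    · rw [rootElt_mul_ne h c g ha]
      exact hg a b
  induction hg using Subgroup.closure_induction_left with
  | one =>
    intro a b
    simp
  | mul_left x hx y hy ih =>
    rcases hx with ⟨a, ha, rfl⟩ | ⟨b, hb, rfl⟩
    · exact key _ _ h a ha y ih
    · exact key _ _ h.symm b hb y ih
  | inv_mul_cancel x hx y hy ih =>
    rcases hx with ⟨a, ha, rfl⟩ | ⟨b, hb, rfl⟩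
    · rw [rootElt_inv]
      exact key _ _ h (-a) (J.neg_mem ha) y ih
    · rw [rootElt_inv]
      exact key _ _ h.symm (-b) (J.neg_mem hb) y ih

theorem congr_rootElt (J : AddSubgroup K) (hJ : ∀ a ∈ J, ∀ b ∈ J, a * b ∈ J)
    {i j : Fin (l + 1)} (h : i ≠ j) (s : K)
    (hs : rootElt h s ∈
      Subgroup.closure (rootElt h '' (J : Set K) ∪ rootElt h.symm '' (J : Set K))) :
    s ∈ J := by
  have := congr_mem J hJ h _ hs i j
  rwa [rootElt_apply_ij, Matrix.one_apply_ne h, sub_zero] at this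

end Congruence

/-! ## The Weyl element trick -/

section Weyl

variable {R : Type*} [Ring R]

/-- In any ring, if `E ^ 2 = F ^ 2 = 0`, `E F E = E`, `F E F = F` and
`W = (1 + E) (1 - F) (1 + E)`, then `W (1 + c F) = (1 - c E) W` for central `c`; here in the
additive form `W F = - E W`. -/
theorem weyl_mul (E F : R) (hEE : E * E = 0) (hFF : F * F = 0) (hEFE : E * F * E = E)
    (hFEF : F * E * F = F) :
    ((1 + E) * (1 - F) * (1 + E)) * F = - (E * ((1 + E) * (1 - F) * (1 + E))) := by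
  have e1 : ((1 + E) * (1 - F) * (1 + E)) = 1 + E - F - E * F - F * E := by
    have : ((1 + E) * (1 - F) * (1 + E)) = 1 + E + E + E * E - F - F * E - E * F - E * F * E := by
      noncomm_ring
    rw [this, hEE, hEFE]
    abel
  rw [e1]
  have e2 : (1 + E - F - E * F - F * E) * F = F + E * F - F * F - E * (F * F) - F * E * F := by
    noncomm_ring
  have e3 : E * (1 + E - F - E * F - F * E) = E + E * E - E * F - (E * E) * F - E * F * E := by
    noncomm_ring
  rw [e2, e3, hEE, hFF, hEFE, hFEF]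
  simp

end Weyl

/-! ## The carpet -/

section Carpet

variable {k : Type*} [Field k] {K : Type u} [Field K]

/-- `J = t ^ 2 k[t]`. -/
def JJ (φ : k[X] →+* K) : AddSubgroup K where
  carrier := {x | ∃ g : k[X], φ (X ^ 2 * g) = x}
  zero_mem' := ⟨0, by simp⟩
  add_mem' := by
    rintro _ _ ⟨g, rfl⟩ ⟨g', rfl⟩
    exact ⟨g + g', by rw [← map_add]; congr 1; ring⟩
  neg_mem' := by
    rintro _ ⟨g, rfl⟩
    exact ⟨-g, by rw [← map_neg]; congr 1; ring⟩

/-- `A = k (1 + t ^ 2) + t ^ 4 k[t]`. -/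
def AA (φ : k[X] →+* K) : AddSubgroup K where
  carrier := {x | ∃ (a : k) (g : k[X]), φ (C a * (1 + X ^ 2) + X ^ 4 * g) = x}
  zero_mem' := ⟨0, 0, by simp⟩
  add_mem' := by
    rintro _ _ ⟨a, g, rfl⟩ ⟨a', g', rfl⟩
    exact ⟨a + a', g + g', by rw [← map_add, C_add]; congr 1; ring⟩
  neg_mem' := by
    rintro _ ⟨a, g, rfl⟩
    exact ⟨-a, -g, by rw [← map_neg, C_neg]; congr 1; ring⟩

/-- `B = (k + k t) (1 - t ^ 2) + t ^ 4 k[t]`. -/
def BB (φ : k[X] →+* K) : AddSubgroup K where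
  carrier := {x | ∃ (a b : k) (g : k[X]), φ ((C a + C b * X) * (1 - X ^ 2) + X ^ 4 * g) = x}
  zero_mem' := ⟨0, 0, 0, by simp⟩
  add_mem' := by
    rintro _ _ ⟨a, b, g, rfl⟩ ⟨a', b', g', rfl⟩
    exact ⟨a + a', b + b', g + g', by rw [← map_add, C_add, C_add]; congr 1; ring⟩
  neg_mem' := by
    rintro _ ⟨a, b, g, rfl⟩
    exact ⟨-a, -b, -g, by rw [← map_neg, C_neg, C_neg]; congr 1; ring⟩

theorem JJ_range (φ : k[X] →+* K) {x : K} (hx : x ∈ JJ φ) : ∃ f : k[X], φ f = x := by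
  obtain ⟨g, hg⟩ := hx
  exact ⟨_, hg⟩

theorem AA_range (φ : k[X] →+* K) {x : K} (hx : x ∈ AA φ) : ∃ f : k[X], φ f = x := by
  obtain ⟨a, g, hg⟩ := hx
  exact ⟨_, hg⟩

theorem BB_range (φ : k[X] →+* K) {x : K} (hx : x ∈ BB φ) : ∃ f : k[X], φ f = x := by
  obtain ⟨a, b, g, hg⟩ := hx
  exact ⟨_, hg⟩

theorem JJ_mul_range (φ : k[X] →+* K) {x : K} (hx : x ∈ JJ φ) (f : k[X]) : x * φ f ∈ JJ φ := by
  obtain ⟨g, rfl⟩ := hx
  exact ⟨g * f, by rw [← map_mul]; congr 1; ring⟩

theorem JJ_mul_JJ_AA (φ : k[X] →+* K) {x y : K} (hx : x ∈ JJ φ) (hy : y ∈ JJ φ) :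
    x * y ∈ AA φ := by
  obtain ⟨g, rfl⟩ := hx
  obtain ⟨g', rfl⟩ := hy
  exact ⟨0, g * g', by rw [← map_mul, C_0]; congr 1; ring⟩

theorem JJ_mul_JJ_BB (φ : k[X] →+* K) {x y : K} (hx : x ∈ JJ φ) (hy : y ∈ JJ φ) :
    x * y ∈ BB φ := by
  obtain ⟨g, rfl⟩ := hx
  obtain ⟨g', rfl⟩ := hy
  exact ⟨0, 0, g * g', by rw [← map_mul, C_0]; congr 1; ring⟩

theorem coeff_X4 (g : k[X]) (n : ℕ) (hn : n < 4) : (X ^ 4 * g).coeff n = 0 := by
  rw [coeff_X_pow_mul']
  simp [not_le.mpr hn]

theorem pos_degree_of_coeff {f : k[X]} (hf : f ≠ 0) (h : f.coeff 0 = 0) : 0 < f.degree := by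
  by_contra hc
  have hle : f.degree ≤ 0 := not_lt.mp hc
  have := eq_C_of_degree_le_zero hle
  rw [h, C_0] at this
  exact hf this

theorem nonConst_AA (φ : k[X] →+* K) : NonConst φ (AA φ) := by
  rintro x ⟨a, g, rfl⟩ hx
  refine ⟨_, rfl, ?_⟩
  set f : k[X] := C a * (1 + X ^ 2) + X ^ 4 * g with hf
  have hf0 : f ≠ 0 := by
    rintro h
    exact hx (by rw [h, map_zero])
  have c0 : f.coeff 0 = a := by
    rw [hf, coeff_add, coeff_X4 g 0 (by norm_num), coeff_C_mul]
    simp [coeff_one]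
  have c2 : f.coeff 2 = a := by
    rw [hf, coeff_add, coeff_X4 g 2 (by norm_num), coeff_C_mul]
    simp [coeff_one]
  by_contra hc
  have hle : f.degree ≤ 0 := not_lt.mp hc
  have h2 : f.coeff 2 = 0 := coeff_eq_zero_of_degree_lt (lt_of_le_of_lt hle (by norm_num))
  have h0 : f.coeff 0 = 0 := by rw [c0, ← c2, h2]
  exact hc (pos_degree_of_coeff hf0 h0)

theorem nonConst_BB (φ : k[X] →+* K) : NonConst φ (BB φ) := by
  rintro x ⟨a, b, g, rfl⟩ hx
  refine ⟨_, rfl, ?_⟩
  set f : k[X] := (C a + C b * X) * (1 - X ^ 2) + X ^ 4 * g with hf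
  have hf' : f = C a + C b * X - C a * X ^ 2 - C b * X ^ 3 + X ^ 4 * g := by
    rw [hf]
    ring
  have hf0 : f ≠ 0 := by
    rintro h
    exact hx (by rw [h, map_zero])
  have c0 : f.coeff 0 = a := by
    rw [hf', coeff_add, coeff_X4 g 0 (by norm_num)]
    simp [coeff_X]
  have c2 : f.coeff 2 = -a := by
    rw [hf', coeff_add, coeff_X4 g 2 (by norm_num)]
    simp [coeff_X_pow]
  by_contra hc
  have hle : f.degree ≤ 0 := not_lt.mp hc
  have h2 : f.coeff 2 = 0 := coeff_eq_zero_of_degree_lt (lt_of_le_of_lt hle (by norm_num))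
  have h0 : f.coeff 0 = 0 := by
    rw [c0, ← neg_neg a, ← c2, h2, neg_zero]
  exact hc (pos_degree_of_coeff hf0 h0)

/-- The carpet of type `A_l`: `A` at `(i₀, i₁)`, `B` at `(i₁, i₀)` and `J` elsewhere. -/
noncomputable def carp (φ : k[X] →+* K) {l : ℕ} (i₀ i₁ : Fin (l + 1)) :
    Fin (l + 1) → Fin (l + 1) → AddSubgroup K :=
  fun i j => if i = i₀ ∧ j = i₁ then AA φ else if i = i₁ ∧ j = i₀ then BB φ else JJ φ

theorem carp_A (φ : k[X] →+* K) {l : ℕ} (i₀ i₁ : Fin (l + 1)) :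
    carp φ i₀ i₁ i₀ i₁ = AA φ := by
  simp [carp]

theorem carp_B (φ : k[X] →+* K) {l : ℕ} (i₀ i₁ : Fin (l + 1)) (h : i₀ ≠ i₁) :
    carp φ i₀ i₁ i₁ i₀ = BB φ := by
  simp [carp, h, h.symm]

theorem carp_J (φ : k[X] →+* K) {l : ℕ} (i₀ i₁ i j : Fin (l + 1)) (h1 : ¬ (i = i₀ ∧ j = i₁))
    (h2 : ¬ (i = i₁ ∧ j = i₀)) : carp φ i₀ i₁ i j = JJ φ := by
  simp only [carp, h1, h2, if_false]

theorem carp_range (φ : k[X] →+* K) {l : ℕ} (i₀ i₁ i j : Fin (l + 1)) {x : K}
    (hx : x ∈ carp φ i₀ i₁ i j) : ∃ f : k[X], φ f = x := by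
  unfold carp at hx
  split_ifs at hx
  · exact AA_range φ hx
  · exact BB_range φ hx
  · exact JJ_range φ hx

theorem isCarpet_carp (φ : k[X] →+* K) {l : ℕ} (i₀ i₁ : Fin (l + 1)) (h01 : i₀ ≠ i₁) :
    IsCarpet (carp φ i₀ i₁) := by
  intro i j m hij hjm him a ha b hb
  by_cases hA : i = i₀ ∧ m = i₁
  · obtain ⟨rfl, rfl⟩ := hA
    rw [carp_J φ i m i j (fun h => hjm h.2) (fun h => h01 h.1)] at ha
    rw [carp_J φ i m j m (fun h => hij h.1.symm) (fun h => h01 h.2.symm)] at hb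
    rw [carp_A]
    exact JJ_mul_JJ_AA φ ha hb
  by_cases hB : i = i₁ ∧ m = i₀
  · obtain ⟨rfl, rfl⟩ := hB
    rw [carp_J φ m i i j (fun h => h01 h.1.symm) (fun h => hjm h.2)] at ha
    rw [carp_J φ m i j m (fun h => h01 h.2) (fun h => hij h.1.symm)] at hb
    rw [carp_B φ m i h01]
    exact JJ_mul_JJ_BB φ ha hb
  rw [carp_J φ i₀ i₁ i m hA hB]
  by_cases h1 : (i = i₀ ∧ j = i₁) ∨ (i = i₁ ∧ j = i₀)
  · -- then the second factor lies in `J`
    obtain ⟨f, rfl⟩ := carp_range φ i₀ i₁ i j ha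
    have hbJ : b ∈ JJ φ := by
      rw [carp_J φ i₀ i₁ j m] at hb
      · exact hb
      · rintro ⟨h2, h3⟩
        rcases h1 with ⟨h4, h5⟩ | ⟨h4, h5⟩
        · exact h01 (h2.symm.trans h5)
        · exact him (h4.trans h3.symm)
      · rintro ⟨h2, h3⟩
        rcases h1 with ⟨h4, h5⟩ | ⟨h4, h5⟩
        · exact him (h4.trans h3.symm)
        · exact h01 (h5.symm.trans h2)
    rw [mul_comm]
    exact JJ_mul_range φ hbJ f
  · have haJ : a ∈ JJ φ := by
      rwa [carp_J φ i₀ i₁ i j (fun h => h1 (Or.inl h)) (fun h => h1 (Or.inr h))] at ha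
    obtain ⟨f, rfl⟩ := carp_range φ i₀ i₁ j m hb
    exact JJ_mul_range φ haJ f

theorem carp_ne_bot (φ : k[X] →+* K) (hφ : Function.Injective φ) {l : ℕ}
    (i₀ i₁ i j : Fin (l + 1)) : carp φ i₀ i₁ i j ≠ ⊥ := by
  intro h
  have hmem : φ (X ^ 4) ∈ carp φ i₀ i₁ i j := by
    unfold carp
    split_ifs
    · exact ⟨0, 1, by simp⟩
    · exact ⟨0, 0, 1, by simp⟩
    · exact ⟨X ^ 2, by congr 1; ring⟩
  rw [h, AddSubgroup.mem_bot] at hmem
  have : (X ^ 4 : k[X]) = 0 := hφ (by rw [hmem, map_zero])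
  exact (pow_ne_zero 4 X_ne_zero) this

theorem rankOne_carp (φ : k[X] →+* K) (hφ : Function.Injective φ) {l : ℕ}
    (i₀ i₁ : Fin (l + 1)) (h01 : i₀ ≠ i₁) {i j : Fin (l + 1)} (h : i ≠ j) (s : K)
    (hs : rootElt h s ∈ rankOneSubgroup (carp φ i₀ i₁) h) : s ∈ carp φ i₀ i₁ i j := by
  unfold rankOneSubgroup at hs
  by_cases hA : i = i₀ ∧ j = i₁
  · obtain ⟨rfl, rfl⟩ := hA
    rw [carp_A, carp_B φ i j h01] at hs
    rw [carp_A]
    exact pingpong φ hφ h _ _ (nonConst_AA φ) (nonConst_BB φ) s hs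
  by_cases hB : i = i₁ ∧ j = i₀
  · obtain ⟨rfl, rfl⟩ := hB
    rw [carp_A, carp_B φ j i h01] at hs
    rw [carp_B φ j i h01]
    exact pingpong φ hφ h _ _ (nonConst_BB φ) (nonConst_AA φ) s hs
  have e1 : carp φ i₀ i₁ i j = JJ φ := carp_J φ i₀ i₁ i j hA hB
  have e2 : carp φ i₀ i₁ j i = JJ φ :=
    carp_J φ i₀ i₁ j i (fun h => hB ⟨h.2, h.1⟩) (fun h => hA ⟨h.2, h.1⟩)
  rw [e1, e2] at hs
  rw [e1]
  refine congr_rootElt (JJ φ) ?_ h s hs
  intro a ha b hb
  obtain ⟨f, rfl⟩ := JJ_range φ hb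
  exact JJ_mul_range φ ha f

theorem rankOneAdmissible_carp (φ : k[X] →+* K) (hφ : Function.Injective φ) {l : ℕ}
    (i₀ i₁ : Fin (l + 1)) (h01 : i₀ ≠ i₁) {i j : Fin (l + 1)} (h : i ≠ j) :
    RankOneAdmissible (carp φ i₀ i₁) h := by
  constructor
  · ext g
    constructor
    · rintro ⟨hg, s, rfl⟩
      exact ⟨s, rankOne_carp φ hφ i₀ i₁ h01 h s hg, rfl⟩
    · rintro ⟨s, hs, rfl⟩
      exact ⟨Subgroup.subset_closure (Or.inl ⟨s, hs, rfl⟩), s, rfl⟩
  · ext g
    constructor
    · rintro ⟨hg, s, rfl⟩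
      refine ⟨s, rankOne_carp φ hφ i₀ i₁ h01 h.symm s ?_, rfl⟩
      have hg' : rootElt h.symm s ∈ rankOneSubgroup (carp φ i₀ i₁) h := hg
      unfold rankOneSubgroup at hg' ⊢
      rwa [Set.union_comm] at hg'
    · rintro ⟨s, hs, rfl⟩
      exact ⟨Subgroup.subset_closure (Or.inr ⟨s, hs, rfl⟩), s, rfl⟩

/-- The relation in `SL_{l+1}(K)` showing that `x_{01}(- c u)` lies in the elementary subgroup. -/
theorem weyl_relation {l : ℕ} {i₀ i₁ i₂ : Fin (l + 1)} (h01 : i₀ ≠ i₁) (h02 : i₀ ≠ i₂)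
    (h12 : i₁ ≠ i₂) (u v s c : K) (huv : u * v + s * s = 1) :
    (rootElt h01 u * rootElt h02 s) * (rootElt h01.symm (-v) * rootElt h02.symm (-s)) *
      (rootElt h01 u * rootElt h02 s) *
      (rootElt h01.symm (c * v) * rootElt h02.symm (c * s)) =
    (rootElt h01 (-(c * u)) * rootElt h02 (-(c * s))) *
    ((rootElt h01 u * rootElt h02 s) * (rootElt h01.symm (-v) * rootElt h02.symm (-s)) *
      (rootElt h01 u * rootElt h02 s)) := by
  set E : Matrix (Fin (l + 1)) (Fin (l + 1)) K := single i₀ i₁ u + single i₀ i₂ s with hE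
  set F : Matrix (Fin (l + 1)) (Fin (l + 1)) K := single i₁ i₀ v + single i₂ i₀ s with hF
  have up : ∀ a b : K, (rootElt h01 a * rootElt h02 b :
      SpecialLinearGroup (Fin (l + 1)) K).1 = 1 + (single i₀ i₁ a + single i₀ i₂ b) := by
    intro a b
    change transvection i₀ i₁ a * transvection i₀ i₂ b = _
    simp only [transvection, mul_add, add_mul, one_mul, mul_one,
      single_mul_single_of_ne _ _ _ _ h01.symm]
    abel
  have dn : ∀ a b : K, (rootElt h01.symm a * rootElt h02.symm b :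
      SpecialLinearGroup (Fin (l + 1)) K).1 = 1 + (single i₁ i₀ a + single i₂ i₀ b) := by
    intro a b
    change transvection i₁ i₀ a * transvection i₂ i₀ b = _
    simp only [transvection, mul_add, add_mul, one_mul, mul_one,
      single_mul_single_of_ne _ _ _ _ h02]
    abel
  have hEF : E * F = single i₀ i₀ 1 := by
    rw [hE, hF]
    simp only [mul_add, add_mul, single_mul_single_same, single_mul_single_of_ne _ _ _ _ h12,
      single_mul_single_of_ne _ _ _ _ h12.symm, zero_add, add_zero]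
    rw [← single_add, huv]
  have hEE : E * E = 0 := by
    rw [hE]
    simp only [mul_add, add_mul, single_mul_single_of_ne _ _ _ _ h01.symm,
      single_mul_single_of_ne _ _ _ _ h02.symm, add_zero]
  have hFF : F * F = 0 := by
    rw [hF]
    simp only [mul_add, add_mul, single_mul_single_of_ne _ _ _ _ h01,
      single_mul_single_of_ne _ _ _ _ h02, add_zero]
  have hEFE : E * F * E = E := by
    rw [hEF, hE]
    simp only [mul_add, single_mul_single_same, one_mul]
  have hFEF : F * E * F = F := by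
    rw [mul_assoc, hEF, hF]
    simp only [add_mul, single_mul_single_same, mul_one]
  have hup1 : (rootElt h01 u * rootElt h02 s :
      SpecialLinearGroup (Fin (l + 1)) K).1 = 1 + E := up u s
  have hdn1 : (rootElt h01.symm (-v) * rootElt h02.symm (-s) :
      SpecialLinearGroup (Fin (l + 1)) K).1 = 1 - F := by
    rw [dn, hF, ← single_neg, ← single_neg]
    abel
  have hup2 : (rootElt h01 (-(c * u)) * rootElt h02 (-(c * s)) :
      SpecialLinearGroup (Fin (l + 1)) K).1 = 1 - c • E := by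
    rw [up, hE, ← single_neg, ← single_neg, smul_add, smul_single, smul_single, smul_eq_mul,
      smul_eq_mul]
    abel
  have hdn2 : (rootElt h01.symm (c * v) * rootElt h02.symm (c * s) :
      SpecialLinearGroup (Fin (l + 1)) K).1 = 1 + c • F := by
    rw [dn, hF, smul_add, smul_single, smul_single, smul_eq_mul, smul_eq_mul]
  generalize rootElt h01 u * rootElt h02 s = T at hup1 ⊢
  generalize rootElt h01.symm (-v) * rootElt h02.symm (-s) = S at hdn1 ⊢
  generalize rootElt h01 (-(c * u)) * rootElt h02 (-(c * s)) = T' at hup2 ⊢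
  generalize rootElt h01.symm (c * v) * rootElt h02.symm (c * s) = S' at hdn2 ⊢
  apply Subtype.ext
  change T.1 * S.1 * T.1 * S'.1 = T'.1 * (T.1 * S.1 * T.1)
  rw [hup1, hdn1, hup2, hdn2]
  have key := weyl_mul E F hEE hFF hEFE hFEF
  rw [mul_add, mul_one, sub_mul, one_mul, mul_smul_comm, key, smul_mul_assoc, smul_neg]
  abel

theorem not_admissible_carp (φ : k[X] →+* K) (hφ : Function.Injective φ) {l : ℕ}
    (i₀ i₁ i₂ : Fin (l + 1)) (h01 : i₀ ≠ i₁) (h02 : i₀ ≠ i₂) (h12 : i₁ ≠ i₂) :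
    ¬ Admissible (carp φ i₀ i₁) := by
  intro hadm
  set σ := carp φ i₀ i₁ with hσ
  have memA : ∀ a ∈ AA φ, rootElt h01 a ∈ elemSubgroup σ := by
    intro a ha
    exact Subgroup.subset_closure ⟨i₀, i₁, h01, a, by rw [hσ, carp_A]; exact ha, rfl⟩
  have memB : ∀ a ∈ BB φ, rootElt h01.symm a ∈ elemSubgroup σ := by
    intro a ha
    exact Subgroup.subset_closure
      ⟨i₁, i₀, h01.symm, a, by rw [hσ, carp_B φ i₀ i₁ h01]; exact ha, rfl⟩
  have memJ : ∀ a ∈ JJ φ, rootElt h02 a ∈ elemSubgroup σ := by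
    intro a ha
    refine Subgroup.subset_closure ⟨i₀, i₂, h02, a, ?_, rfl⟩
    rw [hσ, carp_J φ i₀ i₁ i₀ i₂ (fun h => h12 h.2.symm) (fun h => h01 h.1)]
    exact ha
  have memJ' : ∀ a ∈ JJ φ, rootElt h02.symm a ∈ elemSubgroup σ := by
    intro a ha
    refine Subgroup.subset_closure ⟨i₂, i₀, h02.symm, a, ?_, rfl⟩
    rw [hσ, carp_J φ i₀ i₁ i₂ i₀ (fun h => h02 h.1.symm) (fun h => h12 h.1.symm)]
    exact ha
  let u : K := φ (1 + X ^ 2)
  let v : K := φ (1 - X ^ 2)
  let s : K := φ (X ^ 2)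
  let c : K := φ X
  have huv : u * v + s * s = 1 := by
    change φ (1 + X ^ 2) * φ (1 - X ^ 2) + φ (X ^ 2) * φ (X ^ 2) = 1
    rw [← map_mul, ← map_mul, ← map_add, ← map_one φ]
    congr 1
    ring
  have hu : u ∈ AA φ := ⟨1, 0, by simp [u]⟩
  have hv : -v ∈ BB φ := ⟨-1, 0, 0, by
    change _ = -φ (1 - X ^ 2)
    rw [← map_neg]
    congr 1
    simp⟩
  have hcv : c * v ∈ BB φ := ⟨0, 1, 0, by
    change _ = φ X * φ (1 - X ^ 2)
    rw [← map_mul]
    congr 1
    simp⟩
  have hs : s ∈ JJ φ := ⟨1, by simp [s]⟩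
  have hns : -s ∈ JJ φ := (JJ φ).neg_mem hs
  have hcs : c * s ∈ JJ φ := by
    rw [mul_comm]
    exact JJ_mul_range φ hs X
  have hW : (rootElt h01 u * rootElt h02 s) * (rootElt h01.symm (-v) * rootElt h02.symm (-s)) *
      (rootElt h01 u * rootElt h02 s) ∈ elemSubgroup σ := by
    have h1 : rootElt h01 u * rootElt h02 s ∈ elemSubgroup σ :=
      Subgroup.mul_mem _ (memA u hu) (memJ s hs)
    have h2 : rootElt h01.symm (-v) * rootElt h02.symm (-s) ∈ elemSubgroup σ :=
      Subgroup.mul_mem _ (memB _ hv) (memJ' _ hns)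
    exact Subgroup.mul_mem _ (Subgroup.mul_mem _ h1 h2) h1
  have hrel := weyl_relation h01 h02 h12 u v s c huv
  set W := (rootElt h01 u * rootElt h02 s) * (rootElt h01.symm (-v) * rootElt h02.symm (-s)) *
      (rootElt h01 u * rootElt h02 s) with hWdef
  have hmem : rootElt h01 (-(c * u)) ∈ elemSubgroup σ := by
    have e : rootElt h01 (-(c * u)) =
        W * (rootElt h01.symm (c * v) * rootElt h02.symm (c * s)) * W⁻¹ * rootElt h02 (c * s) := by
      have e2 : rootElt h02 (-(c * s)) * rootElt h02 (c * s) = 1 := by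
        rw [← rootElt_add, neg_add_cancel, rootElt_zero]
      rw [hrel, mul_assoc _ W W⁻¹, mul_inv_cancel, mul_one, mul_assoc, e2, mul_one]
    rw [e]
    refine Subgroup.mul_mem _ (Subgroup.mul_mem _ (Subgroup.mul_mem _ hW ?_)
      (Subgroup.inv_mem _ hW)) (memJ _ hcs)
    exact Subgroup.mul_mem _ (memB _ hcv) (memJ' _ hcs)
  have h3 : rootElt h01 (-(c * u)) ∈ rootElt h01 '' (σ i₀ i₁ : Set K) := by
    rw [← hadm i₀ i₁ h01]
    exact ⟨hmem, _, rfl⟩
  obtain ⟨a, ha, hae⟩ := h3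
  have h4 := rootElt_injective h01 hae
  rw [h4, hσ, carp_A] at ha
  obtain ⟨a', g, hg⟩ := ha
  have h5 : C a' * (1 + X ^ 2) + X ^ 4 * g = -(X * (1 + X ^ 2)) := by
    apply hφ
    rw [hg, map_neg, map_mul]
  have h6 := congrArg (fun f : k[X] => f.coeff 1) h5
  simp only [coeff_add, coeff_X4 g 1 (by norm_num), coeff_C_mul, coeff_neg] at h6
  have h7 : (X * (1 + X ^ 2) : k[X]).coeff 1 = 1 := by
    rw [show (1 : ℕ) = 0 + 1 from rfl, coeff_X_mul]
    simp
  rw [h7] at h6
  simp [coeff_one, coeff_X_pow] at h6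

end Carpet

/-- For every field `K` that is not algebraic over its prime field and every `l ≥ 2` there is a
carpet of type `A_l` over `K`, with all its members nonzero, all of whose rank-one subcarpets are
admissible, but which is not admissible. -/
theorem result (K : Type u) [Field K] (hK : ¬ Algebra.IsAlgebraic (⊥ : Subfield K) K)
    (l : ℕ) (hl : 2 ≤ l) :
    ∃ σ : Fin (l + 1) → Fin (l + 1) → AddSubgroup K,
      IsCarpet σ ∧
      (∀ i j : Fin (l + 1), i ≠ j → σ i j ≠ ⊥) ∧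
      (∀ (i j : Fin (l + 1)) (h : i ≠ j), RankOneAdmissible σ h) ∧
      ¬ Admissible σ := by
  obtain ⟨t, ht⟩ : ∃ t : K, Transcendental (⊥ : Subfield K) t := by
    by_contra hc
    apply hK
    constructor
    intro t
    by_contra ht
    exact hc ⟨t, ht⟩
  let φ : (⊥ : Subfield K)[X] →+* K := (aeval t : (⊥ : Subfield K)[X] →ₐ[(⊥ : Subfield K)] K)
  have hφ : Function.Injective φ := transcendental_iff_injective.mp ht
  let i₀ : Fin (l + 1) := ⟨0, by omega⟩
  let i₁ : Fin (l + 1) := ⟨1, by omega⟩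
  let i₂ : Fin (l + 1) := ⟨2, by omega⟩
  have h01 : i₀ ≠ i₁ := by simp [i₀, i₁]
  have h02 : i₀ ≠ i₂ := by simp [i₀, i₂]
  have h12 : i₁ ≠ i₂ := by simp [i₁, i₂]
  exact ⟨carp φ i₀ i₁, isCarpet_carp φ i₀ i₁ h01, fun i j _ => carp_ne_bot φ hφ i₀ i₁ i j,
    fun i j h => rankOneAdmissible_carp φ hφ i₀ i₁ h01 h,
    not_admissible_carp φ hφ i₀ i₁ i₂ h01 h02 h12⟩

end Pool.Agent.Results.MP_23ee20_al.CarpetRankOne
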